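import Pool.Agent.K3h34.HP.Stm

/-!
# Project HP, brick OBS4: a positive proportion of points without roots
-/

set_option autoImplicit false

namespace Pool.Agent.K3h85.HP

open Polynomial NumberField
open Pool.Agent.K3h34.HP
open Pool.Agent.Y214.HB (toK)

/-- the number of the roots of `P(a, w)` modulo `p` -/
noncomputable def rt {n : ℕ} (P : (MvPolynomial (Fin (n + 1)) ℤ)[X]) (p : ℕ) [Fact p.Prime]
    (a : Fin (n + 1) → ZMod p) : Finset (ZMod p) := by
  classical exact Finset.univ.filter fun w => (P.map (evP p a)).eval w = 0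

section

variable {n : ℕ} {P : (MvPolynomial (Fin (n + 1)) ℤ)[X]} {p : ℕ} [Fact p.Prime]

theorem mem_rt {a : Fin (n + 1) → ZMod p} {w : ZMod p} :
    w ∈ rt P p a ↔ (P.map (evP p a)).eval w = 0 := by
  classical
  unfold rt
  simp

theorem rt_le (hP : P.Monic) (a : Fin (n + 1) → ZMod p) : (rt P p a).card ≤ P.natDegree := by
  classical
  have h1 : (P.map (evP p a)).Monic := hP.map _
  have h2 : rt P p a ⊆ (P.map (evP p a)).roots.toFinset := by
    intro w hw
    rw [Multiset.mem_toFinset, Polynomial.mem_roots h1.ne_zero]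
    exact mem_rt.mp hw
  calc (rt P p a).card ≤ (P.map (evP p a)).roots.toFinset.card := Finset.card_le_card h2
    _ ≤ Multiset.card (P.map (evP p a)).roots := Multiset.toFinset_card_le _
    _ ≤ (P.map (evP p a)).natDegree := Polynomial.card_roots' _
    _ = P.natDegree := hP.natDegree_map _

theorem obs_iff (hP : P.Monic) (a : Fin (n + 1) → ZMod p) :
    ObsP P p a ↔ (rt P p a).card = 0 := by
  unfold ObsP
  rw [hP.leadingCoeff, map_one, Finset.card_eq_zero, Finset.eq_empty_iff_forall_notMem]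
  constructor
  · rintro ⟨-, h⟩ w hw
    exact h w (mem_rt.mp hw)
  · intro h
    exact ⟨one_ne_zero, fun w hw => h w (mem_rt.mpr hw)⟩

open Classical in
theorem ncard_sum {α : Type*} [Fintype α] (s : Set α) :
    (s.ncard : ℝ) = ∑ a : α, if a ∈ s then (1 : ℝ) else 0 := by
  rw [Set.ncard_eq_toFinset_card', Finset.sum_boole]
  congr 2
  ext a
  simp

open Classical in
theorem pts_eq (t : MvPolynomial (Fin (n + 1)) ℤ) : ((Pts P t p).ncard : ℝ) =
    ∑ a : Fin (n + 1) → ZMod p, if evP p a t ≠ 0 then ((rt P p a).card : ℝ) else 0 := by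
  rw [ncard_sum, Fintype.sum_prod_type]
  refine Finset.sum_congr rfl fun a _ => ?_
  by_cases h : evP p a t ≠ 0
  · rw [if_pos h, Finset.sum_boole]
    congr 2
    ext w
    rw [Finset.mem_filter, mem_rt]
    simp only [Finset.mem_univ, true_and]
    exact ⟨fun h1 => h1.2, fun h1 => ⟨h, h1⟩⟩
  · rw [if_neg h]
    refine Finset.sum_eq_zero fun w _ => ?_
    rw [if_neg]
    intro h1
    exact h h1.1

open Classical in
theorem prs_eq : ((Prs P p).ncard : ℝ) =
    ∑ a : Fin (n + 1) → ZMod p, ((rt P p a).card : ℝ) * (((rt P p a).card : ℝ) - 1) := by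
  rw [ncard_sum, Fintype.sum_prod_type]
  refine Finset.sum_congr rfl fun a _ => ?_
  rw [Finset.sum_boole]
  have h1 : (Finset.univ.filter fun x : ZMod p × ZMod p => (a, x) ∈ Prs P p) =
      (rt P p a).offDiag := by
    ext x
    rw [Finset.mem_filter, Finset.mem_offDiag, mem_rt, mem_rt]
    simp only [Finset.mem_univ, true_and]
    unfold Prs
    constructor
    · rintro ⟨h1, h2, h3⟩
      exact ⟨h2, h3, h1⟩
    · rintro ⟨h2, h3, h1⟩
      exact ⟨h1, h2, h3⟩
  have h2 : (rt P p a).card ≤ (rt P p a).card * (rt P p a).card := Nat.le_mul_self _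
  rw [h1, Finset.offDiag_card, Nat.cast_sub h2]
  push_cast
  ring

/-- the counting inequality -/
theorem main_ineq (hP : P.Monic) (hN : 2 ≤ P.natDegree) (t : MvPolynomial (Fin (n + 1)) ℤ) :
    (p : ℝ) ^ (n + 1) - (P.natDegree + 1) *
        (({a : Fin (n + 1) → ZMod p | evP p a t = 0} : Set _).ncard : ℝ) -
      (Pts P t p).ncard + ((Prs P p).ncard : ℝ) / P.natDegree ≤
    (({a : Fin (n + 1) → ZMod p | ObsP P p a} : Set _).ncard : ℝ) := by
  classical
  have hN0 : (0 : ℝ) < P.natDegree := by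
    have : 0 < P.natDegree := by omega
    exact_mod_cast this
  have e1 : (p : ℝ) ^ (n + 1) = ∑ _a : Fin (n + 1) → ZMod p, (1 : ℝ) := by
    rw [Finset.sum_const, nsmul_eq_mul, mul_one, Finset.card_univ, Fintype.card_pi,
      Finset.prod_const, ZMod.card, Finset.card_univ, Fintype.card_fin]
    push_cast
    rfl
  rw [e1, ncard_sum {a : Fin (n + 1) → ZMod p | evP p a t = 0},
    ncard_sum {a : Fin (n + 1) → ZMod p | ObsP P p a}, pts_eq, prs_eq, Finset.mul_sum,
    Finset.sum_div, ← Finset.sum_sub_distrib, ← Finset.sum_sub_distrib, ← Finset.sum_add_distrib]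
  refine Finset.sum_le_sum fun a _ => ?_
  have h1 : ((rt P p a).card : ℝ) ≤ P.natDegree := by exact_mod_cast rt_le hP a
  have h0 : (0 : ℝ) ≤ ((rt P p a).card : ℝ) := Nat.cast_nonneg _
  have h2 : ((a ∈ {a : Fin (n + 1) → ZMod p | ObsP P p a}) ↔ (rt P p a).card = 0) := obs_iff hP a
  have h3 : a ∈ {a : Fin (n + 1) → ZMod p | evP p a t = 0} ↔ evP p a t = 0 := Iff.rfl
  rw [if_congr h2 rfl rfl]
  generalize hr : (rt P p a).card = r at *
  by_cases ht : evP p a t = 0
  · rw [if_pos (h3.mpr ht), if_neg (not_not.mpr ht)]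
    have h4 : (r : ℝ) * ((r : ℝ) - 1) / P.natDegree ≤ P.natDegree := by
      rw [div_le_iff₀ hN0]
      nlinarith
    have h5 : (0 : ℝ) ≤ if r = 0 then (1 : ℝ) else 0 := by
      split_ifs <;> norm_num
    linarith
  · rw [if_neg (fun h => ht (h3.mp h)), if_pos ht]
    by_cases hr0 : r = 0
    · rw [if_pos hr0, hr0]
      norm_num
    · rw [if_neg hr0]
      have h6 : (1 : ℝ) ≤ r := by
        have : 1 ≤ r := Nat.one_le_iff_ne_zero.mpr hr0
        exact_mod_cast this
      have h4 : (r : ℝ) * ((r : ℝ) - 1) / P.natDegree ≤ r - 1 := by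
        rw [div_le_iff₀ hN0]
        nlinarith
      linarith

end

theorem t_OBS4 (h1 : S_OBS1) (h2 : S_OBS2) (h3 : S_OBS3) (h4 : S_SZ) : S_OBS4 := by
  intro n P hP hN hirr
  obtain ⟨L, _, _, t, C, ht, hC⟩ := h1 n P hP hN hirr
  obtain ⟨L', _, _, C', hC'⟩ := h2 n P hP hN hirr
  obtain ⟨Ct, hCt⟩ := h4 n t ht
  have hN0 : (2 : ℝ) ≤ P.natDegree := by exact_mod_cast hN
  set N : ℝ := (P.natDegree : ℝ) with hNdef
  set K : ℝ := |C| + |C'| + (N + 1) * |Ct| + 1 with hK
  have hK1 : 1 ≤ K := by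
    have := abs_nonneg C
    have := abs_nonneg C'
    have : 0 ≤ (N + 1) * |Ct| := mul_nonneg (by linarith) (abs_nonneg Ct)
    linarith
  -- the estimate for one large prime
  have key : ∀ (p : ℕ), p.Prime → (8 * N * K) ^ 2 ≤ p → C < p → C' < p → Ct < p →
      (Nat.card (𝓞 L →+* ZMod p) = 0 ∨
        (Nat.card (𝓞 L →+* ZMod p) = 1 ∧ 1 ≤ Nat.card (𝓞 L' →+* ZMod p))) →
      1 / (4 * N) * (p : ℝ) ^ (n + 1) ≤
        (({a : Fin (n + 1) → ZMod p | ObsP P p a} : Set _).ncard : ℝ) := by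
    intro p hp hp1 hp2 hp3 hp4 hcase
    have : Fact p.Prime := ⟨hp⟩
    refine le_trans ?_ (main_ineq (p := p) hP hN t)
    have b1 := hC p hp hp2
    have b2 := hC' p hp hp3
    have b3 := hCt p hp hp4
    have hp0 : (0 : ℝ) < p := by exact_mod_cast hp.pos
    set q : ℝ := √(p : ℝ) with hq
    have hqq : q * q = p := Real.mul_self_sqrt hp0.le
    have hq0 : 0 < q := Real.sqrt_pos.mpr hp0
    have hq8 : 8 * N * K ≤ q := by
      rw [hq]
      exact Real.le_sqrt_of_sq_le hp1
    have hX : (p : ℝ) ^ (n + 1) = (p : ℝ) ^ n * p := pow_succ _ _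
    set X : ℝ := (p : ℝ) ^ (n + 1) with hXdef
    have hX0 : 0 < X := pow_pos hp0 _
    have hXn : 0 < (p : ℝ) ^ n := pow_pos hp0 _
    set Pt : ℝ := ((Pts P t p).ncard : ℝ)
    set Pr : ℝ := ((Prs P p).ncard : ℝ)
    have hPr0 : 0 ≤ Pr := Nat.cast_nonneg _
    set Zt : ℝ := (({a : Fin (n + 1) → ZMod p | evP p a t = 0} : Set _).ncard : ℝ)
    have hZt0 : 0 ≤ Zt := Nat.cast_nonneg _
    have hq1 : 1 ≤ q := by
      have h8 : 2 * 1 ≤ N * K := mul_le_mul hN0 hK1 zero_le_one (by linarith)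
      linarith
    have hCK : |C| ≤ K := by
      have := abs_nonneg C'
      have : 0 ≤ (N + 1) * |Ct| := mul_nonneg (by linarith) (abs_nonneg Ct)
      linarith
    have hCK' : |C'| ≤ K := by
      have := abs_nonneg C
      have : 0 ≤ (N + 1) * |Ct| := mul_nonneg (by linarith) (abs_nonneg Ct)
      linarith
    have hCKt : (N + 1) * |Ct| ≤ K := by
      have := abs_nonneg C
      have := abs_nonneg C'
      linarith
    have hN8 : (0 : ℝ) < 8 * N := by linarith
    -- the three error terms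
    have c1 : Pt - Nat.card (𝓞 L →+* ZMod p) * X ≤ X / (8 * N) := by
      have d1 : (Pt - Nat.card (𝓞 L →+* ZMod p) * X) * q ≤ K * X := by
        calc (Pt - Nat.card (𝓞 L →+* ZMod p) * X) * q
            ≤ |Pt - Nat.card (𝓞 L →+* ZMod p) * X| * q :=
              mul_le_mul_of_nonneg_right (le_abs_self _) hq0.le
          _ ≤ C * X := b1
          _ ≤ K * X := mul_le_mul_of_nonneg_right ((le_abs_self C).trans hCK) hX0.le
      have d2 : K * X ≤ X / (8 * N) * q := by
        rw [div_mul_eq_mul_div, le_div_iff₀ hN8]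
        have d5 := mul_le_mul_of_nonneg_right hq8 hX0.le
        linarith
      exact le_of_mul_le_mul_right (d1.trans d2) hq0
    have c2 : Nat.card (𝓞 L' →+* ZMod p) * X - Pr ≤ X / (8 * N) := by
      have d1 : (Nat.card (𝓞 L' →+* ZMod p) * X - Pr) * q ≤ K * X := by
        have d3 : C' * X ≤ K * X := mul_le_mul_of_nonneg_right ((le_abs_self C').trans hCK') hX0.le
        linarith
      have d2 : K * X ≤ X / (8 * N) * q := by
        rw [div_mul_eq_mul_div, le_div_iff₀ hN8]
        have d5 := mul_le_mul_of_nonneg_right hq8 hX0.le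
        linarith
      exact le_of_mul_le_mul_right (d1.trans d2) hq0
    have c3 : (N + 1) * Zt ≤ X / (8 * N) := by
      have d1 : (N + 1) * Zt ≤ K * (p : ℝ) ^ n := by
        calc (N + 1) * Zt ≤ (N + 1) * (|Ct| * (p : ℝ) ^ n) := by
              apply mul_le_mul_of_nonneg_left _ (by linarith)
              exact b3.trans (mul_le_mul_of_nonneg_right (le_abs_self _) hXn.le)
          _ = ((N + 1) * |Ct|) * (p : ℝ) ^ n := by ring
          _ ≤ K * (p : ℝ) ^ n := mul_le_mul_of_nonneg_right hCKt hXn.le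
      refine d1.trans ?_
      rw [le_div_iff₀ hN8, hX]
      have d4 : q ≤ p := by
        have d6 := mul_le_mul_of_nonneg_right hq1 hq0.le
        linarith
      have d5 := mul_le_mul_of_nonneg_right (hq8.trans d4) hXn.le
      linarith
    have e1 : 1 / (4 * N) * X = 2 * (X / (8 * N)) := by
      field_simp
      norm_num
    rw [e1]
    have e2 : X = 8 * N * (X / (8 * N)) := by
      field_simp
    have e4 : 0 < X / (8 * N) := div_pos hX0 hN8
    generalize X / (8 * N) = E at e1 e2 e4 c1 c2 c3 ⊢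
    have e7 : 2 * E ≤ N * E := mul_le_mul_of_nonneg_right hN0 e4.le
    rcases hcase with h0 | ⟨h0, h5⟩
    · rw [h0, Nat.cast_zero, zero_mul, sub_zero] at c1
      have e3 : 0 ≤ Pr / N := div_nonneg hPr0 (by linarith)
      linarith
    · rw [h0, Nat.cast_one, one_mul] at c1
      have h6 : (1 : ℝ) ≤ Nat.card (𝓞 L' →+* ZMod p) := by exact_mod_cast h5
      have h7 := mul_le_mul_of_nonneg_right h6 hX0.le
      have e6 : 7 * E ≤ Pr / N := by
        rw [le_div_iff₀ (by linarith : (0 : ℝ) < N)]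
        linarith
      linarith
  refine ⟨1 / (4 * N), by positivity, fun m => ?_⟩
  obtain ⟨M, hM⟩ := exists_nat_ge (max (max (m : ℝ) ((8 * N * K) ^ 2)) (max C (max C' Ct)))
  have m1 : (m : ℝ) ≤ M := (le_max_left _ _).trans ((le_max_left _ _).trans hM)
  have m2 : (8 * N * K) ^ 2 ≤ M := (le_max_right _ _).trans ((le_max_left _ _).trans hM)
  have m3 : C ≤ M := (le_max_left _ _).trans ((le_max_right _ _).trans hM)
  have m4 : C' ≤ M := (le_max_left _ _).trans ((le_max_right _ _).trans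
    ((le_max_right _ _).trans hM))
  have m5 : Ct ≤ M := (le_max_right _ _).trans ((le_max_right _ _).trans
    ((le_max_right _ _).trans hM))
  have fin : ∀ p : ℕ, M < p → p.Prime → (Nat.card (𝓞 L →+* ZMod p) = 0 ∨
        (Nat.card (𝓞 L →+* ZMod p) = 1 ∧ 1 ≤ Nat.card (𝓞 L' →+* ZMod p))) →
      ∃ p : ℕ, m < p ∧ p.Prime ∧ 1 / (4 * N) * (p : ℝ) ^ (n + 1) ≤
        (({a : Fin (n + 1) → ZMod p | ObsP P p a} : Set _).ncard : ℝ) := by
    intro p hMp hp hcase
    have h5 : (M : ℝ) < p := by exact_mod_cast hMp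
    have h6 : m < p := by
      have : (m : ℝ) < p := m1.trans_lt h5
      exact_mod_cast this
    exact ⟨p, h6, hp, key p hp (m2.trans h5.le) (m3.trans_lt h5) (m4.trans_lt h5)
      (m5.trans_lt h5) hcase⟩
  rcases Nat.lt_or_ge (Module.finrank ℚ L) 2 with hL | hL
  · have hL1 : Module.finrank ℚ L = 1 := by
      have : 0 < Module.finrank ℚ L := Module.finrank_pos
      omega
    obtain ⟨p, hMp, hp, h5⟩ := (h3 L').2.1 M
    exact fin p hMp hp (Or.inr ⟨(h3 L).2.2 hL1 p hp, h5⟩)
  · obtain ⟨p, hMp, hp, h5⟩ := (h3 L).1 hL M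
    exact fin p hMp hp (Or.inl h5)

end Pool.Agent.K3h85.HP
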