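import Pool.Agent.K3h34.HP.Stm

/-!
# Project HP, brick ONE: one point, systems modulo `p`
-/

set_option autoImplicit false

namespace Pool.Agent.K3h85.HP.One

open MvPolynomial
open Pool.Agent.K3h34.HP

theorem card_ker {G H : Type*} [AddCommGroup G] [Finite G] [AddCommGroup H] (f : G →+ H)
    (hf : Function.Surjective f) : Nat.card {g : G // f g = 0} * Nat.card H = Nat.card G := by
  have h1 : Nat.card f.ker * f.ker.index = Nat.card G := AddSubgroup.card_mul_index _
  rw [AddSubgroup.index_ker, AddMonoidHom.range_eq_top.mpr hf, AddSubgroup.card_top] at h1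
  exact h1

section

variable {s n : ℕ} {e : Fin s → ℕ} {T : Fin s → Type} [∀ j, Fintype (T j)]
  (u : ∀ j, T j ≃ {u : Fin (n + 1) →₀ ℕ // ∑ i, u i = e j + 2}) {p : ℕ} [Fact p.Prime]
  (a : Fin (n + 1) → ZMod p)

theorem frm_add (c c' : (Σ j, T j) → ZMod p) (j : Fin s) :
    frm u (c + c') j = frm u c j + frm u c' j := by
  unfold frm
  simp only [Pi.add_apply, map_add, Finset.sum_add_distrib]

open Classical in
theorem frm_single (j : Fin s) (t : T j) (x : ZMod p) (j' : Fin s) :
    frm u (Pi.single (⟨j, t⟩ : Σ j, T j) x) j' =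
      if j' = j then MvPolynomial.monomial (u j t : Fin (n + 1) →₀ ℕ) x else 0 := by
  unfold frm
  by_cases h : j' = j
  · subst h
    rw [if_pos rfl, Finset.sum_eq_single t]
    · rw [Pi.single_eq_same]
    · intro t' _ ht
      rw [Pi.single_eq_of_ne, map_zero]
      intro h
      apply ht
      simpa using h
    · intro h
      exact absurd (Finset.mem_univ _) h
  · rw [if_neg h]
    refine Finset.sum_eq_zero fun t' _ => ?_
    rw [Pi.single_eq_of_ne, map_zero]
    intro h1
    exact h (congrArg Sigma.fst h1)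

/-- the values and the combinations of the derivatives -/
noncomputable def Lam (i₀ : Fin (n + 1)) (l : Fin s → ZMod p) :
    ((Σ j, T j) → ZMod p) →+ (Fin s → ZMod p) × ({i : Fin (n + 1) // i ≠ i₀} → ZMod p) where
  toFun c := (fun j => MvPolynomial.eval a (frm u c j),
    fun i => ∑ j, l j * MvPolynomial.eval a (MvPolynomial.pderiv i.1 (frm u c j)))
  map_zero' := by
    have h : ∀ j, frm u (0 : (Σ j, T j) → ZMod p) j = 0 := by
      intro j
      unfold frm
      simp
    simp only [h, map_zero, mul_zero, Finset.sum_const_zero]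
    rfl
  map_add' c c' := by
    simp only [frm_add, map_add, mul_add, Finset.sum_add_distrib]
    rfl

theorem Lam_apply (i₀ : Fin (n + 1)) (l : Fin s → ZMod p) (c : (Σ j, T j) → ZMod p) :
    Lam u a i₀ l c = (fun j => MvPolynomial.eval a (frm u c j),
      fun i => ∑ j, l j * MvPolynomial.eval a (MvPolynomial.pderiv i.1 (frm u c j))) := rfl

variable {a} {i₀ : Fin (n + 1)}

theorem ps (k : Fin (n + 1)) (m : ℕ) :
    ((Finsupp.single k m).prod fun n e => a n ^ e) = a k ^ m :=
  Finsupp.prod_single_index (h := fun n e => a n ^ e) (pow_zero _)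

theorem sum_single' (k : Fin (n + 1)) (m : ℕ) :
    ∑ i, (Finsupp.single k m : Fin (n + 1) →₀ ℕ) i = m := by
  simp [Finsupp.single_apply]

open Classical in
theorem range_fst (h0 : a i₀ ≠ 0) (l : Fin s → ZMod p) (v : Fin s → ZMod p) :
    ((v, 0) : (Fin s → ZMod p) × ({i : Fin (n + 1) // i ≠ i₀} → ZMod p)) ∈
      (Lam u a i₀ l).range := by
  have h1 : ((v, 0) : (Fin s → ZMod p) × ({i : Fin (n + 1) // i ≠ i₀} → ZMod p)) =
      ∑ j, (Pi.single j (v j), 0) := by
    apply Prod.ext
    · rw [Prod.fst_sum]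
      exact (Finset.univ_sum_single v).symm
    · rw [Prod.snd_sum]
      simp
  rw [h1]
  refine AddSubgroup.sum_mem _ fun j _ => ?_
  have s1 : ∑ k, (Finsupp.single i₀ (e j + 2) : Fin (n + 1) →₀ ℕ) k = e j + 2 :=
    sum_single' _ _
  refine ⟨Pi.single ⟨j, (u j).symm ⟨_, s1⟩⟩ (v j / a i₀ ^ (e j + 2)), ?_⟩
  rw [Lam_apply]
  apply Prod.ext
  · funext j'
    dsimp only
    rw [frm_single, Equiv.apply_symm_apply]
    by_cases h : j' = j
    · subst h
      rw [if_pos rfl, Pi.single_eq_same, MvPolynomial.eval_monomial, ps,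
        div_mul_cancel₀ _ (pow_ne_zero _ h0)]
    · rw [if_neg h, map_zero, Pi.single_eq_of_ne h]
  · funext i
    dsimp only
    refine Finset.sum_eq_zero fun j' _ => ?_
    rw [frm_single, Equiv.apply_symm_apply]
    split_ifs
    · rw [MvPolynomial.pderiv_monomial, Finsupp.single_eq_of_ne i.2]
      simp
    · simp

open Classical in
theorem range_snd (h0 : a i₀ ≠ 0) (l : Fin s → ZMod p) (hl : l ≠ 0)
    (w : {i : Fin (n + 1) // i ≠ i₀} → ZMod p) :
    ((0, w) : (Fin s → ZMod p) × ({i : Fin (n + 1) // i ≠ i₀} → ZMod p)) ∈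
      (Lam u a i₀ l).range := by
  obtain ⟨j, hj⟩ : ∃ j, l j ≠ 0 := by
    by_contra h
    push Not at h
    exact hl (funext h)
  have h1 : ((0, w) : (Fin s → ZMod p) × ({i : Fin (n + 1) // i ≠ i₀} → ZMod p)) =
      ∑ i, (0, Pi.single i (w i)) := by
    apply Prod.ext
    · rw [Prod.fst_sum]
      simp
    · rw [Prod.snd_sum]
      exact (Finset.univ_sum_single w).symm
  rw [h1]
  refine AddSubgroup.sum_mem _ fun i _ => ?_
  have s1 : ∑ k, (Finsupp.single i₀ (e j + 1) + Finsupp.single i.1 1 : Fin (n + 1) →₀ ℕ) k =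
      e j + 2 := by
    simp only [Finsupp.add_apply, Finset.sum_add_distrib]
    rw [sum_single', sum_single']
  -- an element with the right second component
  have h2 : ∃ c, (Lam u a i₀ l c).2 = Pi.single i (w i) := by
    refine ⟨Pi.single ⟨j, (u j).symm ⟨_, s1⟩⟩ (w i / (l j * a i₀ ^ (e j + 1))), ?_⟩
    rw [Lam_apply]
    funext i'
    dsimp only
    rw [Finset.sum_eq_single j]
    · rw [frm_single, Equiv.apply_symm_apply, if_pos rfl, MvPolynomial.pderiv_monomial,
        Finsupp.add_apply, Finsupp.single_eq_of_ne i'.2, zero_add]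
      by_cases h : i' = i
      · subst h
        rw [Pi.single_eq_same, Finsupp.single_eq_same, add_tsub_cancel_right,
          MvPolynomial.eval_monomial, ps]
        have h3 : a i₀ ^ (e j + 1) ≠ 0 := pow_ne_zero _ h0
        field_simp
        simp
      · have h3 : i.1 ≠ i'.1 := fun h4 => h (Subtype.ext h4.symm)
        rw [Pi.single_eq_of_ne h, Finsupp.single_eq_of_ne h3.symm]
        simp
    · intro j' _ h
      rw [frm_single, if_neg h, map_zero, map_zero, mul_zero]
    · intro h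
      exact absurd (Finset.mem_univ _) h
  obtain ⟨c, hc⟩ := h2
  have h3 : ((0, Pi.single i (w i)) : (Fin s → ZMod p) × ({i : Fin (n + 1) // i ≠ i₀} → ZMod p)) =
      Lam u a i₀ l c - ((Lam u a i₀ l c).1, 0) := by
    apply Prod.ext
    · simp
    · simp [hc]
  rw [h3]
  exact AddSubgroup.sub_mem _ ⟨c, rfl⟩ (range_fst u h0 l _)

theorem Lam_surj (h0 : a i₀ ≠ 0) (l : Fin s → ZMod p) (hl : l ≠ 0) :
    Function.Surjective (Lam u a i₀ l) := by
  rintro ⟨v, w⟩
  have h1 : ((v, w) : (Fin s → ZMod p) × ({i : Fin (n + 1) // i ≠ i₀} → ZMod p)) =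
      (v, 0) + (0, w) := by simp
  have h2 : (v, w) ∈ (Lam u a i₀ l).range := by
    rw [h1]
    exact AddSubgroup.add_mem _ (range_fst u h0 l v) (range_snd u h0 l hl w)
  exact h2

end

theorem t_ONE : S_ONE := by
  classical
  intro s n e hsn T _ u p _ a ha
  obtain ⟨i₀, h0⟩ : ∃ i, a i ≠ 0 := by
    by_contra h
    push Not at h
    exact ha (funext h)
  have hp0 : (0 : ℝ) < p := by exact_mod_cast (Fact.out : p.Prime).pos
  have hp1 : (1 : ℝ) ≤ p := by exact_mod_cast (Fact.out : p.Prime).one_lt.le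
  have cV : Nat.card ((Σ j, T j) → ZMod p) = p ^ Fintype.card (Σ j, T j) := by
    rw [Nat.card_eq_fintype_card, Fintype.card_fun, ZMod.card]
  have cH1 : Nat.card (Fin s → ZMod p) = p ^ s := by
    rw [Nat.card_eq_fintype_card, Fintype.card_fun, ZMod.card, Fintype.card_fin]
  have cH2 : Nat.card ({i : Fin (n + 1) // i ≠ i₀} → ZMod p) = p ^ n := by
    rw [Nat.card_eq_fintype_card, Fintype.card_fun, ZMod.card]
    congr 1
    simp
  set N := Fintype.card (Σ j, T j) with hN
  -- the systems which vanish at `a`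
  let Φ : ((Σ j, T j) → ZMod p) →+ (Fin s → ZMod p) :=
    (AddMonoidHom.fst _ _).comp (Lam u a i₀ 0)
  have hΦ : Function.Surjective Φ := by
    intro v
    obtain ⟨c, hc⟩ := range_fst u h0 0 v
    exact ⟨c, congrArg Prod.fst hc⟩
  have hK := card_ker Φ hΦ
  have eK : {c : (Σ j, T j) → ZMod p | ∀ j, MvPolynomial.eval a (frm u c j) = 0} =
      {c | Φ c = 0} := by
    ext c
    exact ⟨fun h => funext h, fun h j => congrFun h j⟩
  have hK' : (p : ℝ) ^ s * (({c : (Σ j, T j) → ZMod p |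
      ∀ j, MvPolynomial.eval a (frm u c j) = 0} : Set _).ncard : ℝ) = (p : ℝ) ^ N := by
    have h1 : p ^ s * ({c : (Σ j, T j) → ZMod p |
        ∀ j, MvPolynomial.eval a (frm u c j) = 0} : Set _).ncard = p ^ N := by
      rw [← cV, ← hK, cH1, eK, mul_comm]
      rfl
    exact_mod_cast h1
  refine ⟨?_, hK'⟩
  -- the bad systems
  let B : (Fin s → ZMod p) → Set ((Σ j, T j) → ZMod p) := fun l => {c | Lam u a i₀ l c = 0}
  have hB : ∀ l : Fin s → ZMod p, l ≠ 0 → (p : ℝ) ^ s * (p : ℝ) ^ n * ((B l).ncard : ℝ) =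
      (p : ℝ) ^ N := by
    intro l hl
    have h1 := card_ker (Lam u a i₀ l) (Lam_surj u h0 l hl)
    rw [Nat.card_prod, cH1, cH2, cV] at h1
    have h2 : p ^ s * p ^ n * (B l).ncard = p ^ N := by
      rw [← h1, mul_comm]
      rfl
    exact_mod_cast h2
  have hcover : {c : (Σ j, T j) → ZMod p | ∀ j, MvPolynomial.eval a (frm u c j) = 0} ⊆
      {c : (Σ j, T j) → ZMod p | TestP (frm u c) a} ∪
        ⋃ l ∈ (Finset.univ.filter fun l : Fin s → ZMod p => l ≠ 0), B l := by
    intro c hc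
    by_cases ht : TestP (frm u c) a
    · exact Or.inl ht
    · right
      have h1 : ∃ l : Fin s → ZMod p, l ≠ 0 ∧
          ∀ i, ∑ j, l j * MvPolynomial.eval a (MvPolynomial.pderiv i (frm u c j)) = 0 := by
        by_contra h2
        apply ht
        refine ⟨hc, fun l hl => ?_⟩
        by_contra h3
        push Not at h3
        exact h2 ⟨l, hl, h3⟩
      obtain ⟨l, hl, h2⟩ := h1
      rw [Set.mem_iUnion₂]
      refine ⟨l, Finset.mem_filter.mpr ⟨Finset.mem_univ _, hl⟩, ?_⟩
      change Lam u a i₀ l c = 0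
      rw [Lam_apply]
      exact Prod.ext (funext hc) (funext fun i => h2 i.1)
  have hcard : (({c : (Σ j, T j) → ZMod p | ∀ j, MvPolynomial.eval a (frm u c j) = 0} :
      Set _).ncard : ℝ) ≤ (({c : (Σ j, T j) → ZMod p | TestP (frm u c) a} : Set _).ncard : ℝ) +
        ∑ l ∈ (Finset.univ.filter fun l : Fin s → ZMod p => l ≠ 0), ((B l).ncard : ℝ) := by
    have h1 := (Set.ncard_le_ncard hcover (Set.toFinite _)).trans (Set.ncard_union_le _ _)
    have h2 := Finset.set_ncard_biUnion_le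
      (Finset.univ.filter fun l : Fin s → ZMod p => l ≠ 0) B
    have h3 := h1.trans (Nat.add_le_add_left h2 _)
    exact_mod_cast h3
  have hps : (0 : ℝ) < (p : ℝ) ^ s := pow_pos hp0 _
  have hpn : (0 : ℝ) < (p : ℝ) ^ n := pow_pos hp0 _
  have hpN : (0 : ℝ) < (p : ℝ) ^ N := pow_pos hp0 _
  have hsum : (p : ℝ) ^ s * ∑ l ∈ (Finset.univ.filter fun l : Fin s → ZMod p => l ≠ 0),
      ((B l).ncard : ℝ) ≤ 1 / (p : ℝ) * (p : ℝ) ^ N := by
    rw [Finset.mul_sum]
    have h1 : ∀ l ∈ (Finset.univ.filter fun l : Fin s → ZMod p => l ≠ 0),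
        (p : ℝ) ^ s * ((B l).ncard : ℝ) = (p : ℝ) ^ N / (p : ℝ) ^ n := by
      intro l hl
      rw [eq_div_iff hpn.ne', ← hB l (Finset.mem_filter.mp hl).2]
      ring
    rw [Finset.sum_congr rfl h1, Finset.sum_const, nsmul_eq_mul]
    have h2 : ((Finset.univ.filter fun l : Fin s → ZMod p => l ≠ 0).card : ℝ) ≤ (p : ℝ) ^ s := by
      have h3 := Finset.card_le_univ (Finset.univ.filter fun l : Fin s → ZMod p => l ≠ 0)
      rw [← Nat.card_eq_fintype_card, cH1] at h3
      exact_mod_cast h3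
    have h4 : (p : ℝ) ^ s * p ≤ (p : ℝ) ^ n := by
      rw [← pow_succ]
      exact pow_le_pow_right₀ hp1 hsn
    calc ((Finset.univ.filter fun l : Fin s → ZMod p => l ≠ 0).card : ℝ) *
          ((p : ℝ) ^ N / (p : ℝ) ^ n) ≤ (p : ℝ) ^ s * ((p : ℝ) ^ N / (p : ℝ) ^ n) :=
          mul_le_mul_of_nonneg_right h2 (div_nonneg hpN.le hpn.le)
      _ ≤ 1 / (p : ℝ) * (p : ℝ) ^ N := by
          rw [mul_div_assoc', div_le_iff₀ hpn]
          have h5 : 1 / (p : ℝ) * (p : ℝ) ^ N * ((p : ℝ) ^ s * p) = (p : ℝ) ^ s * (p : ℝ) ^ N := by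
            field_simp
          rw [← h5]
          exact mul_le_mul_of_nonneg_left h4 (by positivity)
  have h6 := mul_le_mul_of_nonneg_left hcard hps.le
  rw [hK', mul_add] at h6
  linarith

end Pool.Agent.K3h85.HP.One
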